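import Mathlib
import Pool.Agent.H64.AugIdeal.Single

/-!
# The right action of `ℓ¹(F_n)` on bounded functions
-/

namespace Pool.Agent.H64.RatIdeal

open Pool.Agent.H64.AugIdeal

variable {n : ℕ}

/-- The right action of `ℓ¹` on bounded functions. -/
noncomputable def act (φ : FreeGroup (Fin n) → ℂ) (z : L1 n) (g : FreeGroup (Fin n)) : ℂ :=
  ∑' h, z h * φ (h * g)

/-- Bounded functions. -/
def Bdd (φ : FreeGroup (Fin n) → ℂ) : Prop := ∃ C : ℝ, ∀ g, ‖φ g‖ ≤ C

theorem Bdd.summable {φ : FreeGroup (Fin n) → ℂ} (hφ : Bdd φ) (z : L1 n) (g : FreeGroup (Fin n)) :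
    Summable fun h => z h * φ (h * g) := by
  obtain ⟨C, hC⟩ := hφ
  exact (summable_mul_bounded z (b := fun h => φ (h * g)) fun h => hC _).of_norm

theorem Bdd.act {φ : FreeGroup (Fin n) → ℂ} (hφ : Bdd φ) (z : L1 n) : Bdd (act φ z) := by
  obtain ⟨C, hC⟩ := hφ
  refine ⟨C * ‖z‖, fun g => ?_⟩
  have h := (pairing (fun h => φ (h * g)) C (fun _ => hC _)).le_opNorm z
  have h2 : ‖pairing (fun h => φ (h * g)) C (fun _ => hC _)‖ ≤ C :=
    LinearMap.mkContinuous_norm_le _ ((norm_nonneg _).trans (hC 1)) _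
  calc ‖RatIdeal.act φ z g‖ = ‖pairing (fun h => φ (h * g)) C (fun _ => hC _) z‖ := rfl
    _ ≤ ‖pairing (fun h => φ (h * g)) C (fun _ => hC _)‖ * ‖z‖ := h
    _ ≤ C * ‖z‖ := mul_le_mul_of_nonneg_right h2 (norm_nonneg _)

theorem act_conv {φ : FreeGroup (Fin n) → ℂ} (hφ : Bdd φ) (z w : L1 n) (g : FreeGroup (Fin n)) :
    act φ (conv z w) g = act (act φ z) w g := by
  obtain ⟨C, hC⟩ := hφ
  have h := tsum_conv_mul (φ := fun u => φ (u * g)) (C := C) (fun _ => hC _)
    (L1.summable_norm z) (L1.summable_norm w)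
  refine Eq.trans ?_ (h.trans (tsum_congr fun t => ?_))
  · rfl
  · unfold act
    simp only [mul_assoc]

theorem act_pt {φ : FreeGroup (Fin n) → ℂ} (g : FreeGroup (Fin n)) : act φ (pt 1) g = φ g := by
  have h := (hasSum_pt 1 fun h => φ (h * g)).tsum_eq
  rw [one_mul] at h
  exact h

theorem act_zero (φ : FreeGroup (Fin n) → ℂ) (g : FreeGroup (Fin n)) : act φ 0 g = 0 := by
  unfold act
  simp [L1.zero_apply]

theorem act_add {φ : FreeGroup (Fin n) → ℂ} (hφ : Bdd φ) (z w : L1 n) (g : FreeGroup (Fin n)) :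
    act φ (z + w) g = act φ z g + act φ w g := by
  unfold act
  rw [← (hφ.summable z g).tsum_add (hφ.summable w g)]
  refine tsum_congr fun h => ?_
  rw [L1.add_apply, add_mul]

theorem act_sum {φ : FreeGroup (Fin n) → ℂ} (hφ : Bdd φ) {α : Type*} (s : Finset α)
    (z : α → L1 n) (g : FreeGroup (Fin n)) :
    act φ (∑ a ∈ s, z a) g = ∑ a ∈ s, act φ (z a) g := by
  classical
  induction s using Finset.induction_on with
  | empty => rw [Finset.sum_empty, Finset.sum_empty, act_zero]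
  | insert a s ha ih => rw [Finset.sum_insert ha, Finset.sum_insert ha, act_add hφ, ih]

/-- The main computation. -/
theorem act_inverse {m : ℕ} {φ : FreeGroup (Fin n) → ℂ} (hφ : Bdd φ)
    {f : Fin m → FreeGroup (Fin n) → ℂ} (hf : ∀ s, Bdd (f s)) {A B : Fin m → Fin m → L1 n}
    (hAB : ∀ s q, ∑ r, conv (A s r) (B r q) = if s = q then pt 1 else 0) {u : Fin m → L1 n}
    (heq : ∀ r g, ∑ s, act (f s) (A s r) g + act φ (u r) g = 0) (q : Fin m)
    (g : FreeGroup (Fin n)) : ∑ r, act φ (conv (u r) (B r q)) g = - f q g := by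
  have h1 : ∀ r, act φ (conv (u r) (B r q)) g = - ∑ s, act (f s) (conv (A s r) (B r q)) g := by
    intro r
    rw [act_conv hφ]
    have h2 : ∀ t, act φ (u r) t = - ∑ s, act (f s) (A s r) t := by
      intro t
      have := heq r t
      exact eq_neg_of_add_eq_zero_right this
    have h3 : ∀ s, act (f s) (conv (A s r) (B r q)) g =
        ∑' t, B r q t * act (f s) (A s r) (t * g) := fun s => act_conv (hf s) _ _ _
    simp only [h3]
    rw [← Summable.tsum_finsetSum (fun s _ => ((hf s).act (A s r)).summable (B r q) g), ← tsum_neg]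
    unfold RatIdeal.act at h2 ⊢
    refine tsum_congr fun t => ?_
    rw [h2 (t * g), mul_neg, Finset.mul_sum]
  simp only [h1]
  rw [Finset.sum_neg_distrib, Finset.sum_comm]
  have h4 : ∀ s, ∑ r, act (f s) (conv (A s r) (B r q)) g = if s = q then f s g else 0 := by
    intro s
    rw [← act_sum (hf s), hAB]
    split_ifs
    · exact act_pt g
    · exact act_zero _ _
  simp only [h4]
  rw [Finset.sum_ite_eq' Finset.univ q]
  simp

end Pool.Agent.H64.RatIdeal
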