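import Mathlib
import Pool.Agent.H64.RatIdeal.Limit

/-!
# Energies of square-summable functions
-/

namespace Pool.Agent.H64.RatIdeal

open Filter Topology Pool.Agent.H64.AugIdeal

variable {n N k : ℕ}

/-- Square-summable functions on `F_n × {1,…,n}`. -/
noncomputable abbrev E2 (n N : ℕ) := lp (fun _ : FreeGroup (Fin n) × Fin N => ℂ) 2

theorem summable_sq (f : E2 n N) : Summable fun p => ‖f p‖ ^ 2 := by
  have h := (lp.memℓp f).summable (by norm_num)
  simpa using h

theorem norm_sq (f : E2 n N) : ‖f‖ ^ 2 = ∑' p, ‖f p‖ ^ 2 := by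
  have h := lp.norm_rpow_eq_tsum (p := 2) (by norm_num) f
  simpa using h

/-- The element of `E2` given by a square-summable function. -/
noncomputable def mkE (f : FreeGroup (Fin n) × Fin N → ℂ) (hf : Summable fun p => ‖f p‖ ^ 2) : E2 n N :=
  ⟨f, by
    apply memℓp_gen
    simpa using hf⟩

@[simp] theorem mkE_apply (f : FreeGroup (Fin n) × Fin N → ℂ)
    (hf : Summable fun p => ‖f p‖ ^ 2) (p) : mkE f hf p = f p := rfl

/-- The energy of `f` on the set `S`. -/
noncomputable def en (f : FreeGroup (Fin n) × Fin N → ℂ) (S : Set (FreeGroup (Fin n))) : ℝ :=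
  ∑' p, Set.indicator {p : FreeGroup (Fin n) × Fin N | p.1 ∈ S} (fun p => ‖f p‖ ^ 2) p

section

variable {f : FreeGroup (Fin n) × Fin N → ℂ} (hf : Summable fun p => ‖f p‖ ^ 2)
  {S S' : Set (FreeGroup (Fin n))}

theorem en_nonneg : 0 ≤ en f S :=
  tsum_nonneg fun _ => Set.indicator_nonneg (fun _ _ => by positivity) _

include hf in
theorem summable_en : Summable
    (Set.indicator {p : FreeGroup (Fin n) × Fin N | p.1 ∈ S} (fun p => ‖f p‖ ^ 2)) :=
  hf.indicator _

include hf in
theorem en_mono (h : S ⊆ S') : en f S ≤ en f S' := by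
  refine (summable_en hf).tsum_le_tsum ?_ (summable_en hf)
  intro p
  refine Set.indicator_le_indicator_of_subset (s := {p : FreeGroup (Fin n) × Fin N | p.1 ∈ S})
    (t := {p : FreeGroup (Fin n) × Fin N | p.1 ∈ S'}) (fun q hq => h hq) (fun q => ?_) p
  positivity

include hf in
theorem en_add (h : Disjoint S S') : en f S + en f S' = en f (S ∪ S') := by
  unfold en
  rw [← (summable_en hf).tsum_add (summable_en hf)]
  refine tsum_congr fun p => ?_
  by_cases h1 : p.1 ∈ S
  · have h2 : p.1 ∉ S' := Set.disjoint_left.1 h h1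
    simp [h1, h2]
  · by_cases h2 : p.1 ∈ S'
    · simp [h1, h2]
    · simp [h1, h2]

theorem en_univ : en f Set.univ = ∑' p, ‖f p‖ ^ 2 := by
  unfold en
  refine tsum_congr fun p => ?_
  simp

include hf in
theorem sq_le_en {p : FreeGroup (Fin n) × Fin N} (hp : p.1 ∈ S) : ‖f p‖ ^ 2 ≤ en f S := by
  have h := (summable_en (S := S) hf).le_tsum p
    (fun _ _ => Set.indicator_nonneg (fun _ _ => by positivity) _)
  refine le_trans (le_of_eq ?_) h
  simp [hp]

theorem en_comp (g : FreeGroup (Fin n)) :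
    en (fun p => f (p.1 * g, p.2)) S = en f {u | u * g⁻¹ ∈ S} := by
  unfold en
  let e : FreeGroup (Fin n) × Fin N ≃ FreeGroup (Fin n) × Fin N :=
    (Equiv.mulRight g).prodCongr (Equiv.refl _)
  rw [← e.tsum_eq (Set.indicator {p : FreeGroup (Fin n) × Fin N | p.1 ∈ {u | u * g⁻¹ ∈ S}}
    fun p => ‖f p‖ ^ 2)]
  refine tsum_congr fun p => ?_
  have : (e p).1 * g⁻¹ = p.1 := by
    change p.1 * g * g⁻¹ = p.1
    exact mul_inv_cancel_right _ _
  by_cases h1 : p.1 ∈ S
  · have h2 : e p ∈ {p : FreeGroup (Fin n) × Fin N | p.1 ∈ {u | u * g⁻¹ ∈ S}} := by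
      change (e p).1 * g⁻¹ ∈ S
      rw [this]
      exact h1
    have h3 : p ∈ {p : FreeGroup (Fin n) × Fin N | p.1 ∈ S} := h1
    rw [Set.indicator_of_mem h2, Set.indicator_of_mem h3]
    rfl
  · have h2 : e p ∉ {p : FreeGroup (Fin n) × Fin N | p.1 ∈ {u | u * g⁻¹ ∈ S}} := by
      change (e p).1 * g⁻¹ ∉ S
      rw [this]
      exact h1
    have h3 : p ∉ {p : FreeGroup (Fin n) × Fin N | p.1 ∈ S} := h1
    rw [Set.indicator_of_notMem h2, Set.indicator_of_notMem h3]

include hf in
theorem summable_comp (g : FreeGroup (Fin n)) :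
    Summable fun p : FreeGroup (Fin n) × Fin N => ‖f (p.1 * g, p.2)‖ ^ 2 := by
  let e : FreeGroup (Fin n) × Fin N ≃ FreeGroup (Fin n) × Fin N :=
    (Equiv.mulRight g).prodCongr (Equiv.refl _)
  exact (e.summable_iff (f := fun p => ‖f p‖ ^ 2)).2 hf

end

/-- The square-summable solutions of a system of finite-range equations. -/
noncomputable def sol (X : Fin k → ((FreeGroup (Fin n) × Fin N) →₀ ℂ)) :
    Submodule ℂ (E2 n N) where
  carrier := {f | ∀ g i, app (X i) f g = 0}
  add_mem' {f g} hf hg := by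
    intro u i
    have h1 := hf u i
    have h2 := hg u i
    unfold app Finsupp.sum at *
    simp only [lp.coeFn_add, Pi.add_apply, mul_add, Finset.sum_add_distrib] at *
    rw [h1, h2, add_zero]
  zero_mem' := by
    intro u i
    unfold app Finsupp.sum
    simp
  smul_mem' c f hf := by
    intro u i
    have h1 := hf u i
    unfold app Finsupp.sum at *
    simp only [lp.coeFn_smul, Pi.smul_apply, smul_eq_mul] at *
    rw [← mul_zero c, ← h1, Finset.mul_sum]
    refine Finset.sum_congr rfl fun p _ => ?_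
    ring

theorem mem_sol {X : Fin k → ((FreeGroup (Fin n) × Fin N) →₀ ℂ)} {f : E2 n N} :
    f ∈ sol X ↔ ∀ g i, app (X i) f g = 0 := Iff.rfl

theorem isClosed_sol (X : Fin k → ((FreeGroup (Fin n) × Fin N) →₀ ℂ)) :
    IsClosed (sol X : Set (E2 n N)) := by
  have h : (sol X : Set (E2 n N)) = ⋂ g, ⋂ i, {f : E2 n N | app (X i) f g = 0} := by
    ext f
    simp only [SetLike.mem_coe, mem_sol, Set.mem_iInter, Set.mem_ofPred_eq]
  rw [h]
  refine isClosed_iInter fun g => isClosed_iInter fun i => ?_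
  refine isClosed_eq ?_ continuous_const
  unfold app Finsupp.sum
  refine continuous_finsetSum _ fun p _ => ?_
  exact continuous_const.mul (lp.evalCLM ℂ (fun _ => ℂ) 2 (p.1 * g, p.2)).continuous

/-- Right translates of solutions are solutions. -/
theorem translate_mem_sol {X : Fin k → ((FreeGroup (Fin n) × Fin N) →₀ ℂ)} {f : E2 n N}
    (hf : f ∈ sol X) (g : FreeGroup (Fin n)) :
    mkE (fun p => f (p.1 * g, p.2)) (summable_comp (summable_sq f) g) ∈ sol X := by
  intro u i
  have h := hf (u * g) i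
  unfold app at *
  simp only [mkE_apply]
  rw [← h]
  simp only [mul_assoc]

end Pool.Agent.H64.RatIdeal
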