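import Mathlib
import Pool.Agent.H64.RatIdeal.Decay
import Pool.Agent.H64.AugIdeal.Fox

/-!
# Systems of finite-range equations with arbitrary finite index types
-/

namespace Pool.Agent.H64.RatIdeal

open Pool.Agent.H64.AugIdeal (grad pot grad_pot pot_bounded exists_stencil)

variable {n : ℕ} {ι κ : Type*}

/-- The value at `g` of the finite-range equation with coefficients `X` applied to `F`. -/
noncomputable def ap (X : (FreeGroup (Fin n) × ι) →₀ ℂ) (F : FreeGroup (Fin n) × ι → ℂ)
    (g : FreeGroup (Fin n)) : ℂ :=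
  Finsupp.linearCombination ℂ (fun p => F (p.1 * g, p.2)) X

theorem ap_eq (X : (FreeGroup (Fin n) × ι) →₀ ℂ) (F : FreeGroup (Fin n) × ι → ℂ)
    (g : FreeGroup (Fin n)) : ap X F g = X.sum fun p a => a * F (p.1 * g, p.2) := by
  unfold ap
  rw [Finsupp.linearCombination_apply]
  rfl

/-- If there are fewer equations than unknown functions, then there is a nonzero solution which
decays exponentially. -/
theorem exists_solution [Fintype ι] [Fintype κ] (hcard : Fintype.card κ < Fintype.card ι)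
    (X : κ → ((FreeGroup (Fin n) × ι) →₀ ℂ)) :
    ∃ F : FreeGroup (Fin n) × ι → ℂ, (∀ g c, ap (X c) F g = 0) ∧ F ≠ 0 ∧
      ∃ K τ : ℝ, 0 ≤ K ∧ 0 ≤ τ ∧ τ < 1 ∧ ∀ p, ‖F p‖ ≤ K * τ ^ FreeGroup.norm p.1 := by
  classical
  let e := Fintype.equivFin ι
  let e' := Fintype.equivFin κ
  let X' : Fin (Fintype.card κ) → ((FreeGroup (Fin n) × Fin (Fintype.card ι)) →₀ ℂ) := fun i =>
    (X (e'.symm i)).mapDomain fun p => (p.1, e p.2)
  obtain ⟨w, h1, h2, j, h3⟩ := exists_l2_solution hcard X'
  obtain ⟨f, hf1, hf2, K, τ, hK, hτ, hτ1, hf3⟩ :=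
    exists_decaying (X := X') (w := mkE w h2) (fun g i => h1 g i) (j := j) h3
  refine ⟨fun p => f (p.1, e p.2), ?_, ?_, K, τ, hK, hτ, hτ1, ?_⟩
  · intro g c
    have h := hf1 g (e' c)
    have h4 : X' (e' c) = (X c).mapDomain fun p => (p.1, e p.2) := by
      change (X (e'.symm (e' c))).mapDomain _ = _
      rw [Equiv.symm_apply_apply]
    rw [h4] at h
    unfold app at h
    rw [Finsupp.sum_mapDomain_index (fun _ => zero_mul _) (fun _ _ _ => add_mul _ _ _)] at h
    rw [ap_eq]
    exact h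
  · intro h0
    apply hf2
    funext p
    have := congrFun h0 (p.1, e.symm p.2)
    simpa using this
  · intro p
    exact hf3 (p.1, e p.2)

end Pool.Agent.H64.RatIdeal
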