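import Mathlib
import Pool.Agent.H64.RatIdeal.System
import Pool.Agent.H64.RatIdeal.Act

/-!
# Rational elements of `ℓ¹(F_n)` and bounded functions annihilated by few of them
-/

namespace Pool.Agent.H64.RatIdeal

open Pool.Agent.H64.AugIdeal

variable {n k : ℕ}

/-- Finitely supported elements of `ℓ¹(F_n)`, that is, elements of the group ring. -/
def FinSupp (z : L1 n) : Prop := {g : FreeGroup (Fin n) | z g ≠ 0}.Finite

/-- An element `z` of `ℓ¹(F_n)` is rational if `z = u B w` with a row `u` and a column `w` over the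
group ring and a square matrix `B` over `ℓ¹(F_n)` which is inverse to a matrix `A` over the group
ring: `A B = 1`. -/
def IsRational (z : L1 n) : Prop :=
  ∃ (m : ℕ) (A B : Fin m → Fin m → L1 n) (u w : Fin m → L1 n),
    (∀ s r, FinSupp (A s r)) ∧ (∀ r, FinSupp (u r)) ∧ (∀ r, FinSupp (w r)) ∧
    (∀ s q, ∑ r, conv (A s r) (B r q) = if s = q then pt 1 else 0) ∧
    z = ∑ q, conv (∑ r, conv (u r) (B r q)) (w q)

/-- The augmentation. -/
noncomputable def aug (z : L1 n) : ℂ := ∑' g, z g

theorem aug_eq_act (z : L1 n) (g : FreeGroup (Fin n)) : aug z = act (fun _ => 1) z g := by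
  unfold aug act
  simp

theorem bdd_const (c : ℂ) : Bdd (fun _ : FreeGroup (Fin n) => c) := ⟨‖c‖, fun _ => le_rfl⟩

theorem act_const (c : ℂ) (z : L1 n) (g : FreeGroup (Fin n)) :
    act (fun _ => c) z g = c * aug z := by
  unfold aug act
  rw [tsum_mul_right, mul_comm]

theorem aug_conv (z w : L1 n) : aug (conv z w) = aug z * aug w := by
  rw [aug_eq_act (conv z w) 1, act_conv (bdd_const 1)]
  have : act (fun _ => (1 : ℂ)) z = fun _ => aug z := by
    funext g
    rw [act_const, one_mul]
  rw [this, act_const]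

theorem aug_sum {α : Type*} (s : Finset α) (z : α → L1 n) :
    aug (∑ a ∈ s, z a) = ∑ a ∈ s, aug (z a) := by
  rw [aug_eq_act _ 1, act_sum (bdd_const 1)]
  exact Finset.sum_congr rfl fun a _ => (aug_eq_act _ 1).symm

theorem aug_add (z w : L1 n) : aug (z + w) = aug z + aug w := by
  rw [aug_eq_act _ 1, act_add (bdd_const 1), ← aug_eq_act, ← aug_eq_act]

theorem aug_smul (c : ℂ) (z : L1 n) : aug (c • z) = c * aug z := by
  unfold aug
  rw [← tsum_mul_left]
  rfl

theorem aug_pt : aug (pt (1 : FreeGroup (Fin n))) = 1 := by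
  rw [aug_eq_act _ 1, act_pt]

theorem aug_zero : aug (0 : L1 n) = 0 := by
  unfold aug
  simp [L1.zero_apply]

theorem conv_pt_left (z : L1 n) : conv (pt 1) z = z := by
  apply L1.ext_R
  rw [R_conv, R_pt, rho_one]
  rfl

theorem sum_conv {α : Type*} (s : Finset α) (z : α → L1 n) (w : L1 n) :
    conv (∑ a ∈ s, z a) w = ∑ a ∈ s, conv (z a) w := map_sum (convR w) z s

theorem zero_conv (w : L1 n) : conv 0 w = 0 := map_zero (convR w)

theorem sub_conv (z z' w : L1 n) : conv (z - z') w = conv z w - conv z' w :=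
  map_sub (convR w) z z'

theorem apply_sum {α : Type*} (T : Finset α) (z : α → L1 n) (g : FreeGroup (Fin n)) :
    (∑ a ∈ T, z a : L1 n) g = ∑ a ∈ T, z a g := by
  classical
  induction T using Finset.induction_on with
  | empty => rw [Finset.sum_empty, Finset.sum_empty]; rfl
  | insert a T ha ih => rw [Finset.sum_insert ha, Finset.sum_insert ha, L1.add_apply, ih]

theorem finSupp_sum_smul {m : ℕ} (c : Fin m → ℂ) {w : Fin m → L1 n} (hw : ∀ s, FinSupp (w s)) :
    FinSupp (∑ s, c s • w s) := by
  refine (Set.finite_iUnion fun s => hw s).subset ?_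
  intro g hg
  by_contra hcon
  rw [Set.mem_iUnion, not_exists] at hcon
  apply hg
  rw [apply_sum]
  refine Finset.sum_eq_zero fun s _ => ?_
  have : w s g = 0 := by
    by_contra h
    exact hcon s h
  rw [L1.smul_apply, this, mul_zero]

theorem finSupp_sub {z w : L1 n} (hz : FinSupp z) (hw : FinSupp w) : FinSupp (z - w) := by
  refine (hz.union hw).subset ?_
  intro g hg
  by_contra hcon
  rw [Set.mem_union, not_or] at hcon
  obtain ⟨h2, h3⟩ := hcon
  apply hg
  have h4 : z g = 0 := by
    by_contra h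
    exact h2 h
  have h5 : w g = 0 := by
    by_contra h
    exact h3 h
  rw [L1.sub_apply, h4, h5, sub_zero]

/-- The row `eps(u) eps(B)` of complex numbers. -/
noncomputable def cf {m : ℕ} (B : Fin m → Fin m → L1 n) (u : Fin m → L1 n) (s : Fin m) : ℂ :=
  ∑ t, aug (u t) * aug (B t s)

/-- The row `u - eps(u) eps(B) A`. -/
noncomputable def row {m : ℕ} (A B : Fin m → Fin m → L1 n) (u : Fin m → L1 n) (r : Fin m) :
    L1 n := u r - ∑ s, cf B u s • A s r

theorem finSupp_row {m : ℕ} {A : Fin m → Fin m → L1 n} (hA : ∀ s r, FinSupp (A s r))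
    (B : Fin m → Fin m → L1 n) {u : Fin m → L1 n} (hu : ∀ r, FinSupp (u r)) (r : Fin m) :
    FinSupp (row A B u r) :=
  finSupp_sub (hu r) (finSupp_sum_smul _ fun s => hA s r)

theorem aug_row {m : ℕ} {A B : Fin m → Fin m → L1 n}
    (hAB : ∀ s q, ∑ r, conv (A s r) (B r q) = if s = q then pt 1 else 0) (u : Fin m → L1 n)
    (r : Fin m) : aug (row A B u r) = 0 := by
  classical
  let MA : Matrix (Fin m) (Fin m) ℂ := fun s r => aug (A s r)
  let MB : Matrix (Fin m) (Fin m) ℂ := fun s r => aug (B s r)
  have h1 : MA * MB = 1 := by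
    ext s q
    rw [Matrix.mul_apply, Matrix.one_apply]
    have h := congrArg aug (hAB s q)
    rw [aug_sum] at h
    simp only [aug_conv] at h
    change ∑ r, aug (A s r) * aug (B r q) = _
    rw [h]
    split_ifs
    · exact aug_pt
    · exact aug_zero
  have h2 : MB * MA = 1 := mul_eq_one_comm.1 h1
  have h3 : ∀ t, ∑ s, aug (B t s) * aug (A s r) = if t = r then 1 else 0 := by
    intro t
    have h := congrFun (congrFun h2 t) r
    rw [Matrix.mul_apply, Matrix.one_apply] at h
    exact h
  have h4 : row A B u r + ∑ s, cf B u s • A s r = u r := by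
    unfold row
    rw [sub_add_cancel]
  have h5 := congrArg aug h4
  rw [aug_add, aug_sum] at h5
  simp only [aug_smul] at h5
  have h6 : ∑ s, cf B u s * aug (A s r) = aug (u r) := by
    unfold cf
    simp only [Finset.sum_mul, mul_assoc]
    rw [Finset.sum_comm]
    simp only [← Finset.mul_sum, h3]
    simp
  rw [h6] at h5
  simpa using h5

theorem sum_row_conv {m : ℕ} {A B : Fin m → Fin m → L1 n}
    (hAB : ∀ s q, ∑ r, conv (A s r) (B r q) = if s = q then pt 1 else 0) (u : Fin m → L1 n)
    (q : Fin m) :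
    ∑ r, conv (u r) (B r q) = ∑ r, conv (row A B u r) (B r q) + cf B u q • pt 1 := by
  classical
  unfold row
  simp only [sub_conv, sum_conv, smul_conv, Finset.sum_sub_distrib]
  have h0 : ∑ r, ∑ s, cf B u s • conv (A s r) (B r q) = cf B u q • pt 1 := by
    rw [Finset.sum_comm]
    simp only [← Finset.smul_sum, hAB]
    rw [Finset.sum_eq_single q]
    · rw [if_pos rfl]
    · intro r _ hr
      rw [if_neg hr, smul_zero]
    · intro h
      exact absurd (Finset.mem_univ q) h
  rw [h0, sub_add_cancel]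

/-- The finitely supported function given by an element with finite support. -/
noncomputable def toFs (z : L1 n) (hz : FinSupp z) : FreeGroup (Fin n) →₀ ℂ :=
  Finsupp.ofSupportFinite (fun g => z g) hz

theorem toFs_sum (z : L1 n) (hz : FinSupp z) (b : FreeGroup (Fin n) → ℂ) :
    ((toFs z hz).sum fun g c => c * b g) = ∑' g, z g * b g := by
  classical
  rw [tsum_eq_sum (s := (toFs z hz).support)]
  · rfl
  · intro g hg
    have : toFs z hz g = 0 := Finsupp.notMem_support_iff.1 hg
    have h2 : z g = 0 := this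
    rw [h2, zero_mul]

/-- Fewer than `n` rational elements of the augmentation ideal are annihilated, with all their
right translates, by a bounded nonconstant function. -/
theorem exists_bounded_rational (hk : k < n) (x : Fin k → L1 n) (hx : ∀ i, x i ∈ I0 n)
    (hr : ∀ i, IsRational (x i)) :
    ∃ φ : FreeGroup (Fin n) → ℂ, Bdd φ ∧ (∃ g h, φ g ≠ φ h) ∧ ∀ i g, act φ (x i) g = 0 := by
  classical
  choose m A B u w hA hu hw hAB hxB using hr
  let v : ∀ i, Fin (m i) → L1 n := fun i r => row (A i) (B i) (u i) r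
  let y : Fin k → L1 n := fun i => ∑ s, cf (B i) (u i) s • w i s
  have hv : ∀ i r, FinSupp (v i r) := fun i r => finSupp_row (hA i) (B i) (hu i) r
  have hv0 : ∀ i r, aug (v i r) = 0 := fun i r => aug_row (hAB i) (u i) r
  have hy : ∀ i, FinSupp (y i) := fun i => finSupp_sum_smul _ (hw i)
  -- the decomposition of the generators
  have hdec : ∀ i, x i = ∑ q, conv (∑ r, conv (v i r) (B i r q)) (w i q) + y i := by
    intro i
    rw [hxB i]
    have h1 : ∀ q, conv (∑ r, conv (u i r) (B i r q)) (w i q) =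
        conv (∑ r, conv (v i r) (B i r q)) (w i q) + cf (B i) (u i) q • w i q := by
      intro q
      rw [sum_row_conv (hAB i) (u i) q, add_conv, smul_conv, conv_pt_left]
    simp only [h1, Finset.sum_add_distrib]
    rfl
  have hy0 : ∀ i, aug (y i) = 0 := by
    intro i
    have h1 : aug (x i) = 0 := hx i
    rw [hdec i, aug_add, aug_sum] at h1
    have h2 : ∀ q, aug (conv (∑ r, conv (v i r) (B i r q)) (w i q)) = 0 := by
      intro q
      rw [aug_conv, aug_sum]
      have h3 : ∀ r, aug (conv (v i r) (B i r q)) = 0 := by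
        intro r
        rw [aug_conv, hv0, zero_mul]
      simp only [h3, Finset.sum_const_zero, zero_mul]
    simp only [h2, Finset.sum_const_zero, zero_add] at h1
    exact h1
  have hst : ∀ z : L1 n, FinSupp z → aug z = 0 → ∃ X : (FreeGroup (Fin n) × Fin n) →₀ ℂ,
      ∀ (φ : FreeGroup (Fin n) → ℂ) (g : FreeGroup (Fin n)),
        AugIdeal.app X (grad φ) g = act φ z g := by
    intro z hz hz0
    have h1 : ((toFs z hz).sum fun _ c => c) = 0 := by
      have h2 := toFs_sum z hz fun _ => 1
      simp only [mul_one] at h2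
      rw [h2]
      exact hz0
    obtain ⟨X, hX⟩ := exists_stencil (toFs z hz) h1
    refine ⟨X, fun φ g => ?_⟩
    rw [hX φ g]
    exact toFs_sum z hz fun h => φ (h * g)
  choose S hS using fun i r => hst (v i r) (hv i r) (hv0 i r)
  choose S' hS' using fun i => hst (y i) (hy i) (hy0 i)
  -- the system
  let ι := Fin n ⊕ (Σ i : Fin k, Fin (m i))
  let κ := (Σ i : Fin k, Fin (m i)) ⊕ Fin k
  let em : FreeGroup (Fin n) × Fin n → FreeGroup (Fin n) × ι := fun p => (p.1, Sum.inl p.2)
  let en : (Σ i : Fin k, Fin (m i)) → FreeGroup (Fin n) → FreeGroup (Fin n) × ι :=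
    fun a h => (h, Sum.inr a)
  let X : κ → ((FreeGroup (Fin n) × ι) →₀ ℂ) := fun c => match c with
    | Sum.inl ⟨i, r⟩ => ∑ s, (toFs (A i s r) (hA i s r)).mapDomain (en ⟨i, s⟩) +
        (S i r).mapDomain em
    | Sum.inr i => ∑ s, (toFs (w i s) (hw i s)).mapDomain (en ⟨i, s⟩) - (S' i).mapDomain em
  have hcard : Fintype.card κ < Fintype.card ι := by
    simp only [κ, ι, Fintype.card_sum, Fintype.card_fin]
    omega
  obtain ⟨F, hF1, hF2, K, τ, hK, hτ, hτ1, hF3⟩ := exists_solution hcard X
  let ψ : FreeGroup (Fin n) → ℂ := pot fun p => F (p.1, Sum.inl p.2)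
  let f : ∀ i, Fin (m i) → FreeGroup (Fin n) → ℂ := fun i s g => F (g, Sum.inr ⟨i, s⟩)
  have hψ : Bdd ψ := ⟨K / (1 - τ), pot_bounded hK hτ hτ1 fun p => hF3 (p.1, Sum.inl p.2)⟩
  have hf : ∀ i s, Bdd (f i s) := by
    intro i s
    refine ⟨K, fun g => (hF3 (g, Sum.inr ⟨i, s⟩)).trans ?_⟩
    calc K * τ ^ FreeGroup.norm g ≤ K * 1 :=
          mul_le_mul_of_nonneg_left (pow_le_one₀ hτ hτ1.le) hK
      _ = K := mul_one K
  have h3 : ∀ (z : L1 n) (hz : FinSupp z) (i : Fin k) (s : Fin (m i)) (g : FreeGroup (Fin n)),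
      Finsupp.linearCombination ℂ (fun p : FreeGroup (Fin n) × ι => F (p.1 * g, p.2))
        ((toFs z hz).mapDomain (en ⟨i, s⟩)) = act (f i s) z g := by
    intro z hz i s g
    rw [Finsupp.linearCombination_mapDomain, Finsupp.linearCombination_apply]
    exact toFs_sum z hz fun h => F (h * g, Sum.inr ⟨i, s⟩)
  have h4 : ∀ (X : (FreeGroup (Fin n) × Fin n) →₀ ℂ) (g : FreeGroup (Fin n)),
      Finsupp.linearCombination ℂ (fun p : FreeGroup (Fin n) × ι => F (p.1 * g, p.2))
        (X.mapDomain em) = AugIdeal.app X (grad ψ) g := by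
    intro X g
    rw [Finsupp.linearCombination_mapDomain, Finsupp.linearCombination_apply]
    change _ = AugIdeal.app X (grad (pot fun p => F (p.1, Sum.inl p.2))) g
    rw [grad_pot]
    rfl
  have heq : ∀ i r g, ∑ s, act (f i s) (A i s r) g + act ψ (v i r) g = 0 := by
    intro i r g
    have h1 := hF1 g (Sum.inl ⟨i, r⟩)
    have h2 : X (Sum.inl ⟨i, r⟩) = ∑ s, (toFs (A i s r) (hA i s r)).mapDomain (en ⟨i, s⟩) +
        (S i r).mapDomain em := rfl
    rw [h2] at h1
    unfold ap at h1
    rw [map_add, map_sum, h4, hS] at h1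
    simp only [h3] at h1
    exact h1
  have hq : ∀ i g, ∑ s, act (f i s) (w i s) g = act ψ (y i) g := by
    intro i g
    have h1 := hF1 g (Sum.inr i)
    have h2 : X (Sum.inr i) =
        ∑ s, (toFs (w i s) (hw i s)).mapDomain (en ⟨i, s⟩) - (S' i).mapDomain em := rfl
    rw [h2] at h1
    unfold ap at h1
    rw [map_sub, map_sum, h4, hS'] at h1
    simp only [h3] at h1
    exact sub_eq_zero.1 h1
  refine ⟨ψ, hψ, ?_, ?_⟩
  · by_contra hcon
    push Not at hcon
    have hc : ψ = fun _ => ψ 1 := by
      funext g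
      exact hcon g 1
    have hf0 : ∀ i t g, f i t g = 0 := by
      intro i t g
      have h1 := act_inverse hψ (hf i) (hAB i) (heq i) t g
      have h2 : ∀ r, act ψ (conv (v i r) (B i r t)) g = 0 := by
        intro r
        rw [hc, act_const, aug_conv, hv0, zero_mul, mul_zero]
      simp only [h2, Finset.sum_const_zero] at h1
      exact (neg_eq_zero.1 h1.symm)
    apply hF2
    funext a
    obtain ⟨g, c⟩ := a
    rcases c with j | ⟨i, s⟩
    · have h1 := congrFun (grad_pot fun p : FreeGroup (Fin n) × Fin n => F (p.1, Sum.inl p.2))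
        (g, j)
      change _ = F (g, Sum.inl j) at h1
      rw [← h1]
      change ψ (FreeGroup.of j * g) - ψ g = 0
      rw [hcon (FreeGroup.of j * g) g, sub_self]
    · exact hf0 i s g
  · intro i g
    have h1 : ∀ q, act ψ (∑ r, conv (v i r) (B i r q)) = fun g => - f i q g := by
      intro q
      funext g
      rw [act_sum hψ]
      exact act_inverse hψ (hf i) (hAB i) (heq i) q g
    rw [hdec i, act_add hψ, act_sum hψ, ← hq i g]
    have h2 : ∀ q, act ψ (conv (∑ r, conv (v i r) (B i r q)) (w i q)) g =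
        - act (f i q) (w i q) g := by
      intro q
      rw [act_conv hψ, h1 q]
      unfold act
      rw [← tsum_neg]
      refine tsum_congr fun h => ?_
      rw [mul_neg]
    simp only [h2, Finset.sum_neg_distrib, neg_add_cancel]

/-- Elements with finite support are rational. -/
theorem isRational_of_finSupp {z : L1 n} (hz : FinSupp z) : IsRational z := by
  classical
  have h1 : FinSupp (pt (1 : FreeGroup (Fin n))) := by
    refine (Set.finite_singleton 1).subset ?_
    intro g hg
    by_contra h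
    apply hg
    rw [pt_apply, if_neg (fun e => h (Set.mem_singleton_iff.2 e))]
  refine ⟨1, fun _ _ => pt 1, fun _ _ => pt 1, fun _ => pt 1, fun _ => z, fun _ _ => h1,
    fun _ => h1, fun _ => hz, ?_, ?_⟩
  · intro s q
    have : s = q := Subsingleton.elim _ _
    simp [this, conv_pt_left]
  · simp [conv_pt_left]

end Pool.Agent.H64.RatIdeal
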